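import Mathlib
import Pool.Agent.H72.FoxCons

namespace Pool.Agent.Results.MP_506947_al.TwoMinimal

open Pool.Agent.H72.FoxDefs

theorem result : ∃ (G : Type) (_ : Group G) (m : ℕ) (C D : PartialRes G m),
    Minimal C ∧ Minimal D ∧ foxIdeal C ≠ foxIdeal D := by
  obtain ⟨G, _, C, D, h⟩ := Pool.Agent.H72.FoxCons.minimal
  exact ⟨G, inferInstance, 1, C, D, h⟩

end Pool.Agent.Results.MP_506947_al.TwoMinimal
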